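import Pool.Agent.WAQ.StmtsM
import Pool.Agent.WAQ.StmtsT
import Pool.Agent.Helper32_WAQ.Add

/-!
# WAQ, row NGL: local coordinates near the curve `Q = O` (port of `Helper6_WAP/NGL`)
-/

namespace Pool.Agent.WAQ.H54

open Classical

variable [Par]

theorem ngl (dif : DifStmt) (gdf : GdfStmt) : NglStmt := by
  intro F _ ϖ hloc d hd P1 hY1 N
  have hg : GoodF F := gdf F (Or.inl ⟨ϖ, hloc⟩)
  have h2 : (2 : F) ≠ 0 := hg.two
  haveI hGd : Gd F := hg.gd
  obtain ⟨ε, hε, hdif⟩ := dif F hg d hd P1 hY1 N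
  have hYn : 0 < ‖cY P1‖ := norm_pos_iff.mpr hY1
  obtain ⟨δ, hδ, hroot⟩ := hg.2.2 (ε / ‖cY P1‖) (div_pos hε hYn)
  have heq : cY P1 ^ 2 = cX P1 * (cX P1 - d * ea F) * (cX P1 - d * eb F) := H32.eqn
  have hx1 : d ^ 3 * cub (cX P1 / d) / cY P1 ^ 2 = 1 := by
    rw [div_eq_one_iff_eq (pow_ne_zero 2 hY1), heq]
    unfold cub
    field_simp
  have hc1 : Continuous fun x : F => d ^ 3 * cub x / cY P1 ^ 2 := by
    unfold cub
    fun_prop
  have hc2 : Continuous fun x : F => d * x := by fun_prop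
  obtain ⟨r1, hr1, h1⟩ := Metric.continuousAt_iff.mp (hc1.continuousAt (x := cX P1 / d)) δ hδ
  obtain ⟨r2, hr2, h3⟩ := Metric.continuousAt_iff.mp (hc2.continuousAt (x := cX P1 / d)) ε hε
  have hNpos : 0 < |N| + 1 := by positivity
  refine ⟨min (min r1 r2) (1 / (|N| + 1)), lt_min (lt_min hr1 hr2) (by positivity), ?_⟩
  rintro ⟨x, t, y⟩ ⟨⟨hU, hy⟩, hnear, hbig⟩
  change y ^ 2 = cub x * cub t at hU
  change y ≠ 0 at hy
  change ‖x - cX P1 / d‖ < _ at hnear
  change _ < ‖t‖ at hbig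
  have hxr1 : dist x (cX P1 / d) < r1 := by
    rw [dist_eq_norm]
    exact lt_of_lt_of_le hnear ((min_le_left _ _).trans (min_le_left _ _))
  have hxr2 : dist x (cX P1 / d) < r2 := by
    rw [dist_eq_norm]
    exact lt_of_lt_of_le hnear ((min_le_left _ _).trans (min_le_right _ _))
  have hNt : N < ‖t‖ := by
    have hr : 0 < min (min r1 r2) (1 / (|N| + 1)) :=
      lt_min (lt_min hr1 hr2) (by positivity)
    have h5 : |N| + 1 ≤ 1 / min (min r1 r2) (1 / (|N| + 1)) := by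
      rw [le_div_iff₀ hr]
      calc (|N| + 1) * min (min r1 r2) (1 / (|N| + 1)) ≤ (|N| + 1) * (1 / (|N| + 1)) :=
            mul_le_mul_of_nonneg_left (min_le_right _ _) hNpos.le
        _ = 1 := by field_simp
    have h6 : N ≤ |N| := le_abs_self N
    linarith
  have hA := h1 hxr1
  have hB := h3 hxr2
  rw [dist_eq_norm, hx1] at hA
  rw [dist_eq_norm, mul_div_cancel₀ _ hd] at hB
  obtain ⟨s, hs, hs1⟩ := hroot _ hA
  have hcx : cub x ≠ 0 := by
    intro h0
    rw [h0, zero_mul] at hU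
    exact hy (pow_eq_zero_iff (two_ne_zero) |>.mp hU)
  have hYY : (cY P1 * s) ^ 2 = d ^ 3 * cub x := by
    rw [mul_pow, hs]
    field_simp
  have hYne : cY P1 * s ≠ 0 := by
    intro h0
    rw [h0] at hYY
    have : d ^ 3 * cub x = 0 := by rw [← hYY]; ring
    rcases mul_eq_zero.mp this with h | h
    · exact hd (pow_eq_zero_iff (by norm_num) |>.mp h)
    · exact hcx h
  have hP : (W d).Nonsingular (d * x) (cY P1 * s) := by
    rw [W_nonsingular d _ _ h2 hd, hYY]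
    unfold cub
    ring
  have hQ : (W d).Nonsingular (d * t) (d ^ 3 * y / (cY P1 * s)) := by
    rw [W_nonsingular d _ _ h2 hd, div_pow, hYY, mul_pow, hU]
    have : (d ^ 3) ^ 2 * (cub x * cub t) / (d ^ 3 * cub x) = d ^ 3 * cub t := by
      field_simp
    rw [this]
    unfold cub
    ring
  refine ⟨(WeierstrassCurve.Affine.Point.some (d * x) (cY P1 * s) hP : Pt d) - P1,
    (WeierstrassCurve.Affine.Point.some (d * t) (d ^ 3 * y / (cY P1 * s)) hQ : Pt d), ?_, ?_, ?_⟩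
  · refine hdif _ (WeierstrassCurve.Affine.Point.some_ne_zero _) hB ?_
    change ‖cY P1 * s - cY P1‖ < ε
    have : cY P1 * s - cY P1 = cY P1 * (s - 1) := by ring
    rw [this, norm_mul]
    calc ‖cY P1‖ * ‖s - 1‖ < ‖cY P1‖ * (ε / ‖cY P1‖) := mul_lt_mul_of_pos_left hs1 hYn
      _ = ε := by field_simp
  · right
    change N < ‖d * t / d‖
    rw [mul_div_cancel_left₀ _ hd]
    exact hNt
  · rw [add_sub_cancel]
    change (x, t, y) = (d * x / d, d * t / d, cY P1 * s * (d ^ 3 * y / (cY P1 * s)) / d ^ 3)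
    rw [mul_div_cancel_left₀ _ hd, mul_div_cancel_left₀ _ hd, mul_div_cancel₀ _ hYne,
      mul_div_cancel_left₀ _ (pow_ne_zero 3 hd)]

end Pool.Agent.WAQ.H54
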